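import Pool.Agent.Helper20.Mono.GoalsH

/-! Packet EX5: simplicial refinements of the dual fan. -/

namespace Mono

open Finset

variable {n : ℕ}

theorem NA_le' {A : Finset (Fin n → ℤ)} (a : Fin n → ℤ) {v : Fin n → ℤ} (hv : v ∈ A) :
    NA A a ≤ a ⬝ᵥ v := by
  unfold NA
  refine csInf_le ?_ ⟨v, hv, rfl⟩
  have hfin : {z : ℤ | ∃ v ∈ A, z = a ⬝ᵥ v}.Finite := by
    have : {z : ℤ | ∃ v ∈ A, z = a ⬝ᵥ v} = (fun v => a ⬝ᵥ v) '' (A : Set (Fin n → ℤ)) := by
      ext z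
      constructor
      · rintro ⟨v, hv, rfl⟩
        exact ⟨v, hv, rfl⟩
      · rintro ⟨v, hv, rfl⟩
        exact ⟨v, hv, rfl⟩
    rw [this]
    exact A.finite_toSet.image _
  exact hfin.bddBelow

theorem NA_eq' {A : Finset (Fin n → ℤ)} {a : Fin n → ℤ} {v : Fin n → ℤ} (hv : v ∈ A)
    (h : ∀ v' ∈ A, a ⬝ᵥ v ≤ a ⬝ᵥ v') : NA A a = a ⬝ᵥ v := by
  apply le_antisymm (NA_le' a hv)
  unfold NA
  refine le_csInf ⟨_, v, hv, rfl⟩ ?_
  rintro z ⟨v', hv', rfl⟩
  exact h v' hv'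

theorem crd_zero' {F : Finset (Fin n → ℤ)} (h : Indep F) (hc : F.card = n) (u : Fin n → ℤ) :
    crd F 0 u = 0 := by
  have := crd_smul h hc 0 0 u
  simpa using this

theorem crd_sum_smul {F : Finset (Fin n → ℤ)} (h : Indep F) (hc : F.card = n)
    {ι : Type} (s : Finset ι) (y : ι → ℝ) (x : ι → Fin n → ℝ) (u : Fin n → ℤ) :
    crd F (∑ b ∈ s, y b • x b) u = ∑ b ∈ s, y b * crd F (x b) u := by
  classical
  induction s using Finset.induction_on with
  | empty => simp [crd_zero' h hc]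
  | insert a s ha ih =>
    rw [sum_insert ha, sum_insert ha, crd_add h hc, crd_smul h hc, ih]

theorem toR_dot_h40 (u v : Fin n → ℤ) : toR u ⬝ᵥ toR v = ((u ⬝ᵥ v : ℤ) : ℝ) := by
  simp [dotProduct, toR]

/-- EX5. -/
theorem dualFan (h1 : FanOfGeneric) (h2 : GenericHeights) (h3 : ConeGen) : DualFan := by
  classical
  intro n A hA hA0
  -- generators of the dual cones
  choose Rv hRv1 hRv2 using fun v : Fin n → ℤ => h3 n (A.image (fun v' => v' - v))
  have hNA : ∀ v ∈ A, ∀ r ∈ Rv v, NA A r = r ⬝ᵥ v := by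
    intro v hv r hr
    apply NA_eq' hv
    intro v' hv'
    have := (hRv1 v r hr).2 (v' - v) (mem_image_of_mem _ hv')
    rw [sub_dotProduct] at this
    rw [dotProduct_comm r v, dotProduct_comm r v']
    linarith
  set R : Finset (Fin n → ℤ) := ((A.biUnion Rv) ∪ univ.image (fun i : Fin n => (Pi.single i 1 : Fin n → ℤ))).erase 0
    with hR
  have hgen : GenOrthant R := by
    refine ⟨?_, ?_, ?_⟩
    · intro r hr i
      rw [hR, mem_erase, mem_union, mem_biUnion, mem_image] at hr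
      rcases hr.2 with ⟨v, hv, hrv⟩ | ⟨j, -, rfl⟩
      · exact (hRv1 v r hrv).1 i
      · by_cases hij : i = j
        · subst hij; simp
        · simp [hij]
    · simp [hR]
    · intro i
      refine ⟨Pi.single i 1, ?_, 1, one_pos, rfl⟩
      rw [hR, mem_erase, mem_union]
      refine ⟨?_, Or.inr (mem_image_of_mem _ (mem_univ i))⟩
      intro h0
      have := congrFun h0 i
      simp at this
  obtain ⟨g, hg1, hg2⟩ := h2 n R (fun r => (NA A r : ℝ)) (fun _ => 0)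
  obtain ⟨T, hTv, -, hT⟩ := h1 n R g hgen hg1
  refine ⟨T, ?_⟩
  intro F hF
  have hind := T.mx_indep F hF
  have hcard := T.mx_card F hF
  have hFR : F ⊆ R := hTv ▸ T.mx_sub F hF
  have hk : ∀ v ∈ R, (NA A v : ℝ) ≤ ∑ u ∈ F, crd F (toR v) u * (NA A u : ℝ) := by
    intro v hv
    exact (hg2 F hFR hcard hind v hv (hT F hF v hv)).1
  set x : Fin n → ℝ := ∑ a ∈ F, toR a with hx
  have hx0 : ∀ i, 0 ≤ x i := by
    intro i
    rw [hx, Finset.sum_apply]
    refine sum_nonneg fun a ha => ?_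
    have := T.vert_nonneg a (T.mx_sub F hF ha) i
    simpa using this
  obtain ⟨v, hv, hmin⟩ := A.exists_min_image (fun v' => x ⬝ᵥ toR v') hA
  refine ⟨v, hv, ?_⟩
  obtain ⟨y, hy0, hxy⟩ := hRv2 v x hx0 (by
    intro c hc
    rw [mem_image] at hc
    obtain ⟨v', hv', rfl⟩ := hc
    have h5 := hmin v' hv'
    have h6 : toR (v' - v) = toR v' - toR v := by
      funext i; simp
    rw [h6, sub_dotProduct, dotProduct_comm _ x, dotProduct_comm _ x]
    linarith)
  -- the functional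
  set k : (Fin n → ℝ) → ℝ := fun z => ∑ u ∈ F, crd F z u * (NA A u : ℝ) with hkdef
  have hksum : k x = ∑ b ∈ Rv v, y b * k (toR b) := by
    simp only [hkdef]
    conv_lhs => rw [hxy]
    simp only [crd_sum_smul hind hcard, sum_mul, mul_sum]
    rw [sum_comm]
    exact sum_congr rfl fun b _ => sum_congr rfl fun u _ => by ring
  have hkx : k x = ∑ a ∈ F, (NA A a : ℝ) := by
    simp only [hkdef]
    refine sum_congr rfl fun a ha => ?_
    rw [crd_eq hind (c := fun _ => 1) (by rw [hx]; simp) ha, one_mul]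
  have hxv : x ⬝ᵥ toR v = ∑ b ∈ Rv v, y b * (NA A b : ℝ) := by
    conv_lhs => rw [hxy]
    rw [sum_dotProduct]
    refine sum_congr rfl fun b hb => ?_
    rw [smul_dotProduct, smul_eq_mul, toR_dot_h40, hNA v hv b hb]
  have hle : x ⬝ᵥ toR v ≤ k x := by
    rw [hxv, hksum]
    refine sum_le_sum fun b hb => ?_
    refine mul_le_mul_of_nonneg_left ?_ (hy0 b)
    by_cases hb0 : b = 0
    · subst hb0
      rw [hNA v hv 0 hb]
      simp [hkdef, toR_zero, crd_zero' hind hcard]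
    · refine hk b ?_
      rw [hR, mem_erase, mem_union, mem_biUnion]
      exact ⟨hb0, Or.inl ⟨v, hv, hb⟩⟩
  have hxv2 : x ⬝ᵥ toR v = ∑ a ∈ F, ((a ⬝ᵥ v : ℤ) : ℝ) := by
    rw [hx, sum_dotProduct]
    exact sum_congr rfl fun a _ => toR_dot_h40 a v
  have hsum : ∑ a ∈ F, (a ⬝ᵥ v) ≤ ∑ a ∈ F, NA A a := by
    rw [hxv2, hkx] at hle
    exact_mod_cast hle
  intro a ha
  by_contra hne
  have hlt : ∑ a ∈ F, NA A a < ∑ a ∈ F, (a ⬝ᵥ v) := by
    refine sum_lt_sum (fun b _ => NA_le' b hv) ⟨a, ha, ?_⟩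
    exact lt_of_le_of_ne (NA_le' a hv) (Ne.symm hne)
  exact absurd hsum (not_le.mpr hlt)

end Mono
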